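import Pool.Agent.N355.MA.Main
import Pool.Agent.N355.MA.Groups
import Pool.Agent.N355.MA.Inter
import Pool.Agent.N355.MA.Guess
import Pool.Agent.N355.MA.Small
import Pool.Agent.N355.MA.Repart
import Pool.Agent.Helper292.ForceCH

/-!
MP_ef066b_gt, Q1 (negative answer).  If the real line is not the union of fewer than continuum many
nowhere dense sets (`cov(𝓜) = 𝔠`, equivalently Martin's axiom for countable partial orders), then
there is a set of reals which satisfies `S₁(Ω, O^{ω-gp})` but not `S₁(Ω, Ω)`.  The hypothesis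
follows from the continuum hypothesis, which can be forced; so `S₁(Ω, Ω) = S₁(Ω, O^{ω-gp})` is not
provable in ZFC.
-/

set_option autoImplicit false

namespace Pool.Agent.Results.MP_ef066b_gt.DifferUnderCovM

open Set Filter Topology MeasureTheory Cardinal

/-- `𝒰` is an open cover of the set of reals `X`: a family of relatively open subsets of `X` whose
union is `X`, and `X` itself is not a member. -/
def OpenCover (X : Set ℝ) (𝒰 : Set (Set ℝ)) : Prop :=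
  (∀ u ∈ 𝒰, ∃ v : Set ℝ, IsOpen v ∧ u = X ∩ v) ∧ ⋃₀ 𝒰 = X ∧ X ∉ 𝒰

/-- every finite subset of `X` is contained in some member of `𝒰` -/
def CatchesFinite (X : Set ℝ) (𝒰 : Set (Set ℝ)) : Prop :=
  ∀ F : Finset ℝ, (F : Set ℝ) ⊆ X → ∃ u ∈ 𝒰, (F : Set ℝ) ⊆ u

/-- `Ω`: the open ω-covers of `X`. -/
def Omega (X : Set ℝ) : Set (Set (Set ℝ)) := {𝒰 | OpenCover X 𝒰 ∧ CatchesFinite X 𝒰}

/-- the sets `𝓕 n` are nonempty, finite, pairwise disjoint, and their union is `𝒰` -/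
def IsPartition (𝒰 : Set (Set ℝ)) (𝓕 : ℕ → Set (Set ℝ)) : Prop :=
  (∀ n, (𝓕 n).Finite) ∧ (∀ n, (𝓕 n).Nonempty) ∧ (∀ m n, m ≠ n → Disjoint (𝓕 m) (𝓕 n)) ∧
    𝒰 = ⋃ n, 𝓕 n

/-- The cover `𝒰` can be partitioned into infinitely many finite covers of `X`. -/
def Multifinite (X : Set ℝ) (𝒰 : Set (Set ℝ)) : Prop :=
  ∃ 𝓕, IsPartition 𝒰 𝓕 ∧ ∀ n, OpenCover X (𝓕 n)

/-- `O^{ω-gp}`: the ω-groupable open covers of `X`. The open cover `𝒰` is multifinite, or it can be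
partitioned into finite sets `𝓕 n` such that `{⋃ 𝓕 n : n}` is an ω-cover of `X` (in particular
`⋃ 𝓕 n ≠ X` for all `n`). -/
def OmegaGp (X : Set ℝ) : Set (Set (Set ℝ)) :=
  {𝒰 | OpenCover X 𝒰 ∧ (Multifinite X 𝒰 ∨
    ∃ 𝓕, IsPartition 𝒰 𝓕 ∧ range (fun n => ⋃₀ 𝓕 n) ∈ Omega X)}

/-- The selection principle `S₁(𝔄, 𝔅)`. -/
def S1 (𝔄 𝔅 : Set (Set (Set ℝ))) : Prop :=
  ∀ 𝒰 : ℕ → Set (Set ℝ), (∀ n, 𝒰 n ∈ 𝔄) → ∃ u : ℕ → Set ℝ, (∀ n, u n ∈ 𝒰 n) ∧ range u ∈ 𝔅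

/-- `cov(𝓜) = 𝔠`: the real line is not the union of fewer than continuum many nowhere dense
sets. -/
def CovMeagerIsContinuum : Prop :=
  ∀ 𝓐 : Set (Set ℝ), #𝓐 < 𝔠 → (∀ N ∈ 𝓐, IsNowhereDense N) → ⋃₀ 𝓐 ≠ Set.univ

/-- If `[0, 1] ⊆ X + X`, then `X` does not satisfy `S₁(Ω, Ω)`. -/
theorem not_s1 {X : Set ℝ} (hX : ∀ z ∈ Icc (0 : ℝ) 1, ∃ x ∈ X, ∃ y ∈ X, x + y = z) :
    ¬ S1 (Omega X) (Omega X) := by
  intro h
  let ε : ℕ → ENNReal := fun n => 2⁻¹ ^ (n + 2)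
  have hε0 : ∀ n, ε n ≠ 0 := fun n => by simp [ε]
  have hεsum : ∑' n, ε n = 2⁻¹ := by
    have h1 : ∀ n, ε n = 2⁻¹ ^ (n + 1) * 2⁻¹ := fun n => by
      simp only [ε]
      rw [pow_succ]
    simp_rw [h1]
    rw [ENNReal.tsum_mul_right]
    have h2 : ∑' n : ℕ, (2⁻¹ : ENNReal) ^ (n + 1) = 1 := by
      have := ENNReal.tsum_geometric_add_one (2⁻¹ : ENNReal)
      rw [this]
      rw [ENNReal.one_sub_inv_two]
      simp
      exact ENNReal.inv_mul_cancel (by norm_num) (by norm_num)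
    rw [h2, one_mul]
  have hεlt : ∀ n, ε n < 1 := fun n => by
    simp only [ε]
    exact pow_lt_one₀ (by simp) (by rw [ENNReal.inv_lt_one]; norm_num) (by omega)
  let S : Set ℝ → Set ℝ := fun v => {z | ∃ x ∈ v, ∃ y ∈ v, x + y = z}
  have hnot : ∀ n, ∀ v : Set ℝ, volume (S v) < ε n → ¬ X ⊆ v := by
    intro n v hv hXv
    have h1 : Icc (0 : ℝ) 1 ⊆ S v := by
      intro z hz
      obtain ⟨x, hx, y, hy, hxy⟩ := hX z hz
      exact ⟨x, hXv hx, y, hXv hy, hxy⟩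
    have h2 : (1 : ENNReal) ≤ volume (S v) := by
      have h3 := measure_mono (μ := volume) h1
      rw [Real.volume_Icc] at h3
      simpa using h3
    exact absurd (h2.trans_lt hv) (not_lt.2 (hεlt n).le)
  have hcover : ∀ n, {u | ∃ v : Set ℝ, IsOpen v ∧ u = X ∩ v ∧ volume (S v) < ε n} ∈ Omega X := by
    intro n
    have hω : ∀ F : Finset ℝ, (F : Set ℝ) ⊆ X →
        ∃ u ∈ {u | ∃ v : Set ℝ, IsOpen v ∧ u = X ∩ v ∧ volume (S v) < ε n}, (F : Set ℝ) ⊆ u := by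
      intro F hF
      have hS : volume (S F) = 0 := by
        have h1 : S F = (fun p : ℝ × ℝ => p.1 + p.2) '' ((F : Set ℝ) ×ˢ (F : Set ℝ)) := by
          ext z
          simp only [S, mem_ofPred_eq, mem_image, mem_prod, Prod.exists]
          constructor
          · rintro ⟨x, hx, y, hy, hxy⟩
            exact ⟨x, y, ⟨hx, hy⟩, hxy⟩
          · rintro ⟨x, y, ⟨hx, hy⟩, hxy⟩
            exact ⟨x, hx, y, hy, hxy⟩
        rw [h1]
        exact ((F.finite_toSet.prod F.finite_toSet).image _).measure_zero _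
      obtain ⟨O, hSO, hO, hOε⟩ := Set.exists_isOpen_lt_of_lt (S F) (ε n) (by
        rw [hS]
        exact pos_iff_ne_zero.2 (hε0 n))
      have hsub : (F : Set ℝ) ×ˢ (F : Set ℝ) ⊆ (fun p : ℝ × ℝ => p.1 + p.2) ⁻¹' O := by
        rintro ⟨x, y⟩ ⟨hx, hy⟩
        exact hSO ⟨x, hx, y, hy, rfl⟩
      obtain ⟨u, v, hu, hv, hFu, hFv, huv⟩ := generalized_tube_lemma F.finite_toSet.isCompact
        F.finite_toSet.isCompact (hO.preimage (by fun_prop)) hsub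
      refine ⟨X ∩ (u ∩ v), ⟨u ∩ v, hu.inter hv, rfl, ?_⟩, fun x hx => ⟨hF hx, hFu hx, hFv hx⟩⟩
      refine lt_of_le_of_lt (measure_mono ?_) hOε
      rintro z ⟨x, hx, y, hy, rfl⟩
      exact huv (show (x, y) ∈ u ×ˢ v from ⟨hx.1, hy.2⟩)
    refine ⟨⟨?_, ?_, ?_⟩, hω⟩
    · rintro _ ⟨v, hv, rfl, -⟩
      exact ⟨v, hv, rfl⟩
    · apply Subset.antisymm
      · rintro x ⟨_, ⟨v, -, rfl, -⟩, hx⟩
        exact hx.1
      · intro x hx
        obtain ⟨u, hu, hxu⟩ := hω {x} (by simpa using hx)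
        exact ⟨u, hu, hxu (by simp)⟩
    · rintro ⟨v, -, hXv, hvε⟩
      refine hnot n v hvε ?_
      rw [hXv]
      exact inter_subset_right
  obtain ⟨u, hu, -, hω⟩ := h _ hcover
  choose v _hv huv hvε using hu
  have h1 : Icc (0 : ℝ) 1 ⊆ ⋃ n, S (v n) := by
    intro z hz
    obtain ⟨x, hx, y, hy, hxy⟩ := hX z hz
    obtain ⟨_, ⟨n, rfl⟩, hn⟩ := hω {x, y} (by
      intro w hw
      rcases Finset.mem_insert.1 (Finset.mem_coe.1 hw) with rfl | hw
      · exact hx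
      · rw [Finset.mem_singleton.1 hw]
        exact hy)
    have hxn : x ∈ v n := by
      have := hn (show x ∈ (({x, y} : Finset ℝ) : Set ℝ) by simp)
      rw [huv n] at this
      exact this.2
    have hyn : y ∈ v n := by
      have := hn (show y ∈ (({x, y} : Finset ℝ) : Set ℝ) by simp)
      rw [huv n] at this
      exact this.2
    exact mem_iUnion.2 ⟨n, x, hxn, y, hyn, hxy⟩
  have h2 : (1 : ENNReal) ≤ ∑' n, ε n := by
    calc (1 : ENNReal) = volume (Icc (0 : ℝ) 1) := by rw [Real.volume_Icc]; simp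
      _ ≤ volume (⋃ n, S (v n)) := measure_mono h1
      _ ≤ ∑' n, volume (S (v n)) := measure_iUnion_le _
      _ ≤ ∑' n, ε n := ENNReal.tsum_le_tsum fun n => (hvε n).le
  rw [hεsum] at h2
  rw [ENNReal.one_le_inv] at h2
  norm_num at h2

/-- The two selection properties for a set with the Rothberger property and the functional form of
the Scheepers property. -/
theorem s1_gp {X : Set ℝ} (hne : X.Nonempty)
    (hR : ∀ 𝒱 : ℕ → Set (Set ℝ), (∀ n, ∀ V ∈ 𝒱 n, IsOpen V) → (∀ n, X ⊆ ⋃₀ 𝒱 n) →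
      ∃ V : ℕ → Set ℝ, (∀ n, V n ∈ 𝒱 n) ∧ X ⊆ ⋃ n, V n)
    (hS : ∀ O : ℕ → ℕ → Set ℝ, (∀ n m, IsOpen (O n m)) → (∀ n, Monotone (O n)) →
      (∀ n, X ⊆ ⋃ m, O n m) → ∃ h : ℕ → ℕ, ∀ F : Finset ℝ, (F : Set ℝ) ⊆ X →
        {n | (F : Set ℝ) ⊆ O n (h n)}.Infinite) :
    S1 (Omega X) (OmegaGp X) := by
  intro 𝒰 h𝒰
  obtain ⟨G, hG, 𝓕, hP, hF⟩ := Pool.Agent.N355.MA.s1_part hne hR hS 𝒰
    (fun n => ⟨(h𝒰 n).1.1, (h𝒰 n).1.2.2, (h𝒰 n).2⟩)
  have hmem : ∀ u ∈ range G, (∃ v : Set ℝ, IsOpen v ∧ u = X ∩ v) ∧ u ⊆ X ∧ u ≠ X := by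
    rintro _ ⟨n, rfl⟩
    obtain ⟨v, hv, hGv⟩ := (h𝒰 n).1.1 _ (hG n)
    refine ⟨⟨v, hv, hGv⟩, hGv ▸ inter_subset_left, fun h => ?_⟩
    exact (h𝒰 n).1.2.2 (h ▸ hG n)
  have hcov : ⋃₀ range G = X := by
    apply Subset.antisymm
    · exact sUnion_subset fun u hu => (hmem u hu).2.1
    · intro x hx
      obtain ⟨n, hn⟩ := (hF {x} (by simpa using hx)).nonempty
      obtain ⟨u, hu, hxu⟩ := hn (show x ∈ (({x} : Finset ℝ) : Set ℝ) by simp)
      refine ⟨u, ?_, hxu⟩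
      rw [hP.2.2.2]
      exact mem_iUnion.2 ⟨n, hu⟩
  have hX : X ∉ range G := fun h => (hmem X h).2.2 rfl
  refine ⟨G, hG, ⟨fun u hu => (hmem u hu).1, hcov, hX⟩, ?_⟩
  rcases Pool.Agent.N355.MA.repart X (range G) 𝓕 hP (fun u hu => (hmem u hu).2) hF with
    ⟨𝓖, hQ, h1⟩ | ⟨𝓖, hQ, h1, h2⟩
  · refine Or.inl ⟨𝓖, hQ, fun n => ⟨fun u hu => (hmem u ?_).1, h1 n, fun h => hX ?_⟩⟩
    · rw [hQ.2.2.2]
      exact mem_iUnion.2 ⟨n, hu⟩
    · rw [hQ.2.2.2]
      exact mem_iUnion.2 ⟨n, h⟩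
  · have hsub : ∀ n, ∀ u ∈ 𝓖 n, u ∈ range G := fun n u hu => by
      rw [hQ.2.2.2]
      exact mem_iUnion.2 ⟨n, hu⟩
    refine Or.inr ⟨𝓖, hQ, ⟨?_, ?_, ?_⟩, ?_⟩
    · rintro _ ⟨n, rfl⟩
      choose! v hv huv using fun u (hu : u ∈ range G) => (hmem u hu).1
      refine ⟨⋃ u ∈ 𝓖 n, v u, isOpen_biUnion fun u hu => hv u (hsub n u hu), ?_⟩
      ext x
      simp only [mem_sUnion, mem_inter_iff, mem_iUnion, exists_prop]
      constructor
      · rintro ⟨u, hu, hx⟩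
        have h3 := huv u (hsub n u hu)
        rw [h3] at hx
        exact ⟨hx.1, u, hu, hx.2⟩
      · rintro ⟨hxX, u, hu, hx⟩
        refine ⟨u, hu, ?_⟩
        rw [huv u (hsub n u hu)]
        exact ⟨hxX, hx⟩
    · apply Subset.antisymm
      · rintro x ⟨_, ⟨n, rfl⟩, u, hu, hx⟩
        exact (hmem u (hsub n u hu)).2.1 hx
      · intro x hx
        obtain ⟨n, hn⟩ := h2 {x} (by simpa using hx)
        exact ⟨_, ⟨n, rfl⟩, hn (show x ∈ (({x} : Finset ℝ) : Set ℝ) by simp)⟩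
    · rintro ⟨n, hn⟩
      exact h1 n hn
    · intro F hFX
      obtain ⟨n, hn⟩ := h2 F hFX
      exact ⟨_, ⟨n, rfl⟩, hn⟩

/-- The continuum hypothesis implies `cov(𝓜) = 𝔠` (Baire category theorem). -/
theorem covM_of_CH (hCH : Cardinal.aleph 1 = Cardinal.continuum.{0}) : CovMeagerIsContinuum := by
  intro 𝓐 h1 h2 h3
  rw [← hCH] at h1
  have hc : 𝓐.Countable := (Cardinal.countable_iff_lt_aleph_one 𝓐).2 h1
  have h4 : IsMeagre (Set.univ : Set ℝ) :=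
    isMeagre_iff_countable_union_isNowhereDense.2 ⟨𝓐, h2, hc, h3.ge⟩
  have h5 : (∅ : Set ℝ) ∈ residual ℝ := by
    have h6 : (Set.univ : Set ℝ)ᶜ ∈ residual ℝ := h4
    rwa [compl_univ] at h6
  exact Set.not_nonempty_empty (dense_of_mem_residual h5).nonempty

/-- (1) There is a notion of forcing all of whose conditions force that `ω₁` is preserved and that
the continuum hypothesis holds. (2) The continuum hypothesis implies that the real line is not the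
union of fewer than continuum many nowhere dense sets. (3) If the real line is not the union of
fewer than continuum many nowhere dense sets, then there is a set of reals which satisfies
`S₁(Ω, O^{ω-gp})` and does not satisfy `S₁(Ω, Ω)`. -/
theorem result :
    (∃ (P : Type) (_ : Preorder P), Nonempty P ∧ ∀ p : P,
      p ∈ Pool.Agent.Helper292.ForceCH.OmegaOnePreserved P ∧
      p ∈ Pool.Agent.Helper292.ForceCH.CHHolds P) ∧
    (Cardinal.aleph 1 = Cardinal.continuum.{0} → CovMeagerIsContinuum) ∧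
    (CovMeagerIsContinuum →
      ∃ X : Set ℝ, S1 (Omega X) (OmegaGp X) ∧ ¬ S1 (Omega X) (Omega X)) := by
  refine ⟨?_, covM_of_CH, fun hcov => ?_⟩
  · obtain ⟨P, i, h1, h2⟩ := Pool.Agent.Helper292.ForceCH.exists_forcing
    exact ⟨P, i, h1, fun p => ⟨(h2 p).1, (h2 p).2.2⟩⟩
  · have hint := Pool.Agent.N355.MA.inter_residual hcov
    obtain ⟨X, hne, hsum, hR, hS⟩ := Pool.Agent.N355.MA.exists_set_K hint
      (Pool.Agent.N355.MA.bound hint)
      (Pool.Agent.N355.MA.small (Pool.Agent.N355.MA.guess hint))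
    exact ⟨X, s1_gp hne hR hS, not_s1 hsum⟩

end Pool.Agent.Results.MP_ef066b_gt.DifferUnderCovM
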